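import Pool.Agent.Y45.TG.Stm

/-! Project TG, finite groups. -/

set_option autoImplicit false

namespace Pool.Agent.Y38.TG

theorem aux (L : Set (FreeGroup ℕ))
    (hL : ∀ (G : Type) [Group G] [Finite G], (∀ w ∈ L, ∀ ψ : FreeGroup ℕ →* G, ψ w = 1) →
      (∀ a ∈ commutator G, ∀ b ∈ commutator G, a * b = b * a) → ∀ a b : G, a * b = b * a) :
    ∀ (n : ℕ) (G : Type) [Group G] [Finite G], Nat.card G = n →
      (∀ w ∈ L, ∀ ψ : FreeGroup ℕ →* G, ψ w = 1) → ∀ a b : G, a * b = b * a := by
  intro n
  induction n using Nat.strong_induction_on with
  | _ n ih =>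
    intro G _ _ hn hG
    -- proper subgroups are commutative
    have hsub : ∀ H : Subgroup G, H ≠ ⊤ → ∀ a ∈ H, ∀ b ∈ H, a * b = b * a := by
      intro H hH a ha b hb
      have hlt : Nat.card H < n := by
        rw [← hn]
        refine lt_of_le_of_ne (Subgroup.card_le_card_group H) (fun h => hH ?_)
        exact Subgroup.eq_top_of_card_eq H h
      have h1 := ih (Nat.card H) hlt H rfl (fun w hw ψ => by
        have h2 := hG w hw (H.subtype.comp ψ)
        exact Subtype.ext h2) ⟨a, ha⟩ ⟨b, hb⟩
      exact congrArg Subtype.val h1
    by_cases hc : commutator G = ⊤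
    · by_cases hall : ∀ (p : ℕ) (_hp : Fact p.Prime) (P : Sylow p G), (↑P : Subgroup G).Normal
      · have hnil : Group.IsNilpotent G := (Group.isNilpotent_of_finite_tfae.out 0 3).2 hall
        rcases subsingleton_or_nontrivial G with hs | hs
        · intro a b
          exact Subsingleton.elim _ _
        · have h1 := Group.IsSolvable.commutator_lt_top_of_nontrivial G
          exact absurd hc h1.ne
      · exfalso
        push Not at hall
        obtain ⟨p, hp, P, hP⟩ := hall
        have hN : Subgroup.normalizer (P : Set G) ≠ ⊤ := by
          intro h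
          exact hP (Subgroup.normalizer_eq_top_iff.1 h)
        have hle : (P : Subgroup G) ≤ Subgroup.normalizer (P : Set G) := Subgroup.le_normalizer
        have hNC : Subgroup.normalizer (P : Set G) ≤ Subgroup.centralizer (P : Set G) := by
          intro g hg
          rw [Subgroup.mem_centralizer_iff]
          intro h hh
          exact hsub _ hN h (hle hh) g hg
        have hcomp := MonoidHom.ker_transferSylow_isComplement' P hNC
        have hker : (MonoidHom.transferSylow P hNC).ker = ⊤ := by
          rw [eq_top_iff, ← hc, commutator_def, Subgroup.commutator_le]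
          intro g _ h _
          rw [MonoidHom.mem_ker, map_commutatorElement]
          have h2 : ∀ x y : P, x * y = y * x := fun x y =>
            Subtype.ext (hsub _ hN x (hle x.2) y (hle y.2))
          rw [commutatorElement_eq_one_iff_mul_comm]
          exact h2 _ _
        rw [hker] at hcomp
        have hbot := Subgroup.isComplement'_top_left.1 hcomp
        apply hP
        rw [hbot]
        infer_instance
    · exact hL G hG (hsub (commutator G) hc)

theorem fin : Pool.Agent.Y45.TG.FinStmt := by
  intro L hL G _ _ hG
  exact aux L hL (Nat.card G) G rfl hG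

end Pool.Agent.Y38.TG
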